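import Pool.Agent.GR.X.Fin
import Pool.Agent.GR.Alg
import Pool.Agent.GK.C.Cor
import Pool.Agent.GK.H.Alg
import Pool.Agent.QD.F.Trace

/-!
# The Hasse-Weil conjecture over thin fields of bounded degree implies it in small degrees

`E : y² = x³ + A x + B` with `A, B ∈ ℤ` (every elliptic curve over `ℚ` has such an equation), `T` a
finite set of primes containing the primes below `101` and those dividing `4A³ + 27B²`, so that `E`
has good reduction outside `T`.  Let `V` be ANY finite set of primes, `i` a natural number and `ρ ≥ 0` a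
real number.  Call a number field `F` thin if at most `ρ [F : ℚ]` of its infinite places are real and ALL
its local degrees `[F_w : ℚ_p]` at the places above the primes `p ∈ V`, `p ∉ T`, are divisible by
`2^i`.  (For `ρ = 0` the thin fields are totally complex.)  There is a function
`bound : ℕ → ℕ → ℕ → ℝ → ℕ` (of `i`, `n`, `m`, `ρ`, independent of `E`, `T`, `V` and of all other data)
with the following property.

Hypotheses which are known theorems for `E/ℚ`: the Hasse-Weil conjecture (entire completed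
L-function, of finite order in vertical strips, with its functional equation) over the totally real
fields of degree at most `bound i n m ρ`, in particular over `ℚ`, and over the quadratic extensions of
those of degree `2^m` (modularity and base change to totally real fields).

Over the thin fields poles are allowed.  A multiplier is an entire function of finite order, not
identically zero.  Let `j ≥ 0`.  Suppose that for all, except possibly finitely many, thin fields `F`
with `2^(m+1) ∣ [F : ℚ] ≤ 2^j bound i n m ρ` there is a multiplier `Q` such that, for `L = F` and for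
all the quadratic extensions `L` of `F` with `[L : ℚ] ≤ 2^j bound i n m ρ`, exceptions omitted:
`Q(s) Λ(E/L, s)` extends to an entire function of finite order in vertical strips, `Λ(E/L, s)`
satisfies its functional equation, and its poles with `1 ≤ Re s ≤ 3/2` have order less than `2^j`.  So
the poles over `F` and over the quadratic extensions of `F` lie among the zeros of one entire function
of finite order.  (For `Q = 1` and `j = 0` this is the Hasse-Weil conjecture over the thin fields of
degree at most `bound i n m ρ`, see `upToPoles`.)  Then for every number field `K` with `[K : ℚ] ≤ n`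
* the completed L-function `Λ(E/K, s)` is entire, of finite order in vertical strips, and equal to
  `Λ(E/K, 2 - s)` or to `-Λ(E/K, 2 - s)`;
* `E` satisfies the Hasse-Weil conjecture, with the exact sign, over every quadratic extension of `K`;
* if `K` is totally complex, `E` satisfies the Hasse-Weil conjecture, with the exact sign, over `K`;
* if `ρ > 0`, `E` satisfies the Hasse-Weil conjecture, with the exact sign, over `K`, for ALL `K`.
-/

namespace Pool.Agent.Results.MP_bf9450_nt.BoundedThinFields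

open NumberField IsDedekindDomain

open scoped TensorProduct

/-! ### The places of good reduction -/

/-- `a_p = p + 1 - #E(𝔽_p)` for `E : y² = x³ + A x + B`; with the point at infinity `#E(𝔽_p)` is the
number of affine solutions plus one. -/
noncomputable def tracePrime (A B : ℤ) (p : ℕ) : ℤ :=
  (p : ℤ) - Nat.card {P : ZMod p × ZMod p // P.2 ^ 2 = P.1 ^ 3 + (A : ZMod p) * P.1 + (B : ZMod p)}

/-- `α^f + β^f`, where `α + β = a` and `α β = p`, by the recursion for the power sums: if `a` is the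
trace of `Frob_p` (with determinant `p`), this is the trace of `Frob_p^f`. -/
noncomputable def tracePower (a p : ℝ) : ℕ → ℝ
  | 0 => 2
  | 1 => a
  | (f + 2) => a * tracePower a p (f + 1) - p * tracePower a p f

section Places

variable {K : Type} [Field K] [NumberField K]

/-- The finite place `v` of `K` does not lie above a prime of `T`. -/
def AwayFrom (T : Finset ℕ) (v : HeightOneSpectrum (𝓞 K)) : Prop :=
  ∀ p ∈ T, ((p : ℕ) : 𝓞 K) ∉ v.asIdeal

/-- The norm `N v` of a finite place. -/
noncomputable def norm (v : HeightOneSpectrum (𝓞 K)) : ℕ := Ideal.absNorm v.asIdeal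

/-- The trace `a_v` of `Frob_v` on the Tate module of `E`, for a place `v` of good reduction above
`p` with `N v = p^f`: as `Frob_v = Frob_p^f`, it is `α^f + β^f` where `α + β = a_p`, `α β = p`. -/
noncomputable def trace (A B : ℤ) (v : HeightOneSpectrum (𝓞 K)) : ℝ :=
  tracePower (tracePrime A B (norm v).minFac) (norm v).minFac
    ((norm v).factorization (norm v).minFac)

/-- The Euler factor `(1 - a_v N v^(-s) + N v^(1-2s))⁻¹` of `L(E/K, s)` at a good place `v`. -/
noncomputable def eulerFactor (A B : ℤ) (v : HeightOneSpectrum (𝓞 K)) (s : ℂ) : ℂ :=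
  (1 - (trace A B v : ℂ) * (norm v : ℂ) ^ (-s) + (norm v : ℂ) ^ (1 - 2 * s))⁻¹

end Places

/-- The product of the Euler factors of `L(E/K, s)` at the finite places of `K` not above `T`. -/
noncomputable def goodPart (A B : ℤ) (K : Type) [Field K] [NumberField K] (T : Finset ℕ)
    (s : ℂ) : ℂ :=
  ∏' v : {v : HeightOneSpectrum (𝓞 K) // AwayFrom T v}, eulerFactor A B v.1 s

/-! ### The places above `T` -/

/-- Local data above the primes of `T`.  For a number field `K` and a prime `p` let
`R = ℚ_p ⊗ K`, the product of the completions `K_v`, `v` above `p`.  The data are: the product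
`rootNumber p R` of the local root numbers `w(E/K_v)`, the norm `conductor p R` of the `p`-part of
the conductor of `E/K`, and the product `polynomial p R` of the polynomials
`det(1 - Frob_v X^(f_v) | V_ℓ(E)^(I_v))`, whose value at `X = p^(-s)` is the inverse of the product
of the Euler factors above `p`.  All that is used: they depend only on the isomorphism class of the
`ℚ_p`-algebra `R`, they are multiplicative on products, the signs are `± 1`, the norms are positive,
and the polynomials have constant coefficient `1` and no root of absolute value less than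
`p^(-1/2)`. -/
structure LocalData where
  rootNumber : ∀ (p : ℕ) [Fact p.Prime] (R : Type) [CommRing R] [Algebra ℚ_[p] R], ℤ
  conductor : ∀ (p : ℕ) [Fact p.Prime] (R : Type) [CommRing R] [Algebra ℚ_[p] R], ℝ
  polynomial : ∀ (p : ℕ) [Fact p.Prime] (R : Type) [CommRing R] [Algebra ℚ_[p] R], Polynomial ℂ
  rootNumber_iso : ∀ (p : ℕ) [Fact p.Prime] (R R' : Type) [CommRing R] [Algebra ℚ_[p] R]
    [CommRing R'] [Algebra ℚ_[p] R'] [Module.Finite ℚ_[p] R] [Module.Finite ℚ_[p] R'],
    Nonempty (R ≃ₐ[ℚ_[p]] R') → rootNumber p R = rootNumber p R'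
  conductor_iso : ∀ (p : ℕ) [Fact p.Prime] (R R' : Type) [CommRing R] [Algebra ℚ_[p] R]
    [CommRing R'] [Algebra ℚ_[p] R'] [Module.Finite ℚ_[p] R] [Module.Finite ℚ_[p] R'],
    Nonempty (R ≃ₐ[ℚ_[p]] R') → conductor p R = conductor p R'
  polynomial_iso : ∀ (p : ℕ) [Fact p.Prime] (R R' : Type) [CommRing R] [Algebra ℚ_[p] R]
    [CommRing R'] [Algebra ℚ_[p] R'] [Module.Finite ℚ_[p] R] [Module.Finite ℚ_[p] R'],
    Nonempty (R ≃ₐ[ℚ_[p]] R') → polynomial p R = polynomial p R'
  rootNumber_prod : ∀ (p : ℕ) [Fact p.Prime] (R R' : Type) [CommRing R] [Algebra ℚ_[p] R]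
    [CommRing R'] [Algebra ℚ_[p] R'] [Module.Finite ℚ_[p] R] [Module.Finite ℚ_[p] R'],
    rootNumber p (R × R') = rootNumber p R * rootNumber p R'
  conductor_prod : ∀ (p : ℕ) [Fact p.Prime] (R R' : Type) [CommRing R] [Algebra ℚ_[p] R]
    [CommRing R'] [Algebra ℚ_[p] R'] [Module.Finite ℚ_[p] R] [Module.Finite ℚ_[p] R'],
    conductor p (R × R') = conductor p R * conductor p R'
  polynomial_prod : ∀ (p : ℕ) [Fact p.Prime] (R R' : Type) [CommRing R] [Algebra ℚ_[p] R]
    [CommRing R'] [Algebra ℚ_[p] R'] [Module.Finite ℚ_[p] R] [Module.Finite ℚ_[p] R'],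
    polynomial p (R × R') = polynomial p R * polynomial p R'
  rootNumber_sign : ∀ (p : ℕ) [Fact p.Prime] (R : Type) [CommRing R] [Algebra ℚ_[p] R]
    [Module.Finite ℚ_[p] R], rootNumber p R = 1 ∨ rootNumber p R = -1
  conductor_pos : ∀ (p : ℕ) [Fact p.Prime] (R : Type) [CommRing R] [Algebra ℚ_[p] R]
    [Module.Finite ℚ_[p] R], 0 < conductor p R
  polynomial_zero : ∀ (p : ℕ) [Fact p.Prime] (R : Type) [CommRing R] [Algebra ℚ_[p] R]
    [Module.Finite ℚ_[p] R], (polynomial p R).eval 0 = 1
  polynomial_root : ∀ (p : ℕ) [Fact p.Prime] (R : Type) [CommRing R] [Algebra ℚ_[p] R]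
    [Module.Finite ℚ_[p] R] (z : ℂ), (polynomial p R).eval z = 0 →
    (p : ℝ) ^ (-(1 / 2) : ℝ) ≤ ‖z‖

section HasseWeil

variable (A B : ℤ) (T : Finset ℕ) (D : LocalData) (K : Type) [Field K] [NumberField K]

open Classical in
/-- The global root number `w(E/K)`: `-1` for every archimedean place, `1` for every finite place
of good reduction, and the local root numbers above `T`. -/
noncomputable def rootNumber : ℤ :=
  (-1) ^ (InfinitePlace.nrRealPlaces K + InfinitePlace.nrComplexPlaces K) *
    ∏ p ∈ T, if h : p.Prime then haveI := Fact.mk h; D.rootNumber p (ℚ_[p] ⊗[ℚ] K) else 1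

open Classical in
/-- `A_{E/K} = disc(K)² N`, `N` the norm of the conductor of `E/K`. -/
noncomputable def conductorConstant : ℝ :=
  (NumberField.discr K : ℝ) ^ 2 *
    ∏ p ∈ T, if h : p.Prime then haveI := Fact.mk h; D.conductor p (ℚ_[p] ⊗[ℚ] K) else 1

open Classical in
/-- The inverse of the product of the Euler factors of `L(E/K, s)` above `T`. -/
noncomputable def badPartInv (s : ℂ) : ℂ :=
  ∏ p ∈ T, if h : p.Prime then haveI := Fact.mk h;
    (D.polynomial p (ℚ_[p] ⊗[ℚ] K)).eval ((p : ℂ) ^ (-s)) else 1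

/-- `L(E/K, s)` as an Euler product, `Re s > 3/2`. -/
noncomputable def LFunction (s : ℂ) : ℂ := goodPart A B K T s / badPartInv T D K s

/-- Finite order in vertical strips: `|F(s)| ≤ exp (C (1 + |Im s|)^c)` for `a ≤ Re s ≤ b`.  This is
implied by boundedness in vertical strips, and also by finite order. -/
def FiniteOrderInStrips (F : ℂ → ℂ) : Prop :=
  ∀ a b : ℝ, ∃ c C : ℝ, ∀ s : ℂ, a ≤ s.re → s.re ≤ b →
    ‖F s‖ ≤ Real.exp (C * (1 + |s.im|) ^ c)

/-- The Hasse-Weil conjecture for `E` over `K`: the completed L-function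
`Λ(E/K, s) = A_{E/K}^(s/2) ((2π)^(-s) Γ(s))^[K:ℚ] L(E/K, s)` extends to an entire function, of finite
order in vertical strips, and `Λ(E/K, s) = w(E/K) Λ(E/K, 2 - s)`.  (Then `L(E/K, s)` is entire
too, as `1/Γ` is entire.) -/
def HasseWeil : Prop :=
  ∃ Lam : ℂ → ℂ, Differentiable ℂ Lam ∧ FiniteOrderInStrips Lam ∧
    (∀ s : ℂ, Lam s = (rootNumber T D K : ℂ) * Lam (2 - s)) ∧
    ∀ s : ℂ, 3 / 2 < s.re →
      Lam s = ((conductorConstant T D K : ℝ) : ℂ) ^ (s / 2) *
        ((2 * Real.pi : ℂ) ^ (-s) * Complex.Gamma s) ^ Module.finrank ℚ K *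
          LFunction A B T D K s

/-- The multipliers: entire functions of finite order which are not identically zero.  Examples: the
nonzero polynomials. -/
structure Multiplier (Q : ℂ → ℂ) : Prop where
  entire : Differentiable ℂ Q
  ne_zero : ∃ s : ℂ, Q s ≠ 0
  order : ∃ c C : ℝ, ∀ s : ℂ, ‖Q s‖ ≤ Real.exp (C * (1 + ‖s‖) ^ c)

/-- The Hasse-Weil conjecture for `E` over `K` up to poles at the zeros of `Q`, of order less than
`r`: `Q(s) Λ(E/K, s)` extends to an entire function `G(s)`, of finite order in vertical strips; the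
meromorphic function `Λ = G / Q` satisfies `Λ(E/K, s) = w(E/K) Λ(E/K, 2 - s)`, and its poles with
`1 ≤ Re s ≤ 3/2` have order less than `r`.  (By the functional equation and by the Euler product
all poles are in `1/2 ≤ Re s ≤ 3/2`, symmetric to `Re s = 1`.) -/
def HasseWeilUpToPoles (Q : ℂ → ℂ) (r : ℕ) : Prop :=
  ∃ G : ℂ → ℂ, Differentiable ℂ G ∧ FiniteOrderInStrips G ∧
    (∀ s : ℂ, G s * Q (2 - s) = (rootNumber T D K : ℂ) * (G (2 - s) * Q s)) ∧
    (∀ s : ℂ, 1 ≤ s.re → s.re ≤ 3 / 2 → analyticOrderAt Q s < analyticOrderAt G s + r) ∧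
    ∀ s : ℂ, 3 / 2 < s.re →
      G s = Q s * (((conductorConstant T D K : ℝ) : ℂ) ^ (s / 2) *
        ((2 * Real.pi : ℂ) ^ (-s) * Complex.Gamma s) ^ Module.finrank ℚ K *
          LFunction A B T D K s)

/-- The Hasse-Weil conjecture for `E` over `K` up to the sign of the functional equation. -/
def HasseWeilUpToSign : Prop :=
  ∃ Lam : ℂ → ℂ, Differentiable ℂ Lam ∧ FiniteOrderInStrips Lam ∧
    ((∀ s : ℂ, Lam s = Lam (2 - s)) ∨ ∀ s : ℂ, Lam s = -Lam (2 - s)) ∧
    ∀ s : ℂ, 3 / 2 < s.re →
      Lam s = ((conductorConstant T D K : ℝ) : ℂ) ^ (s / 2) *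
        ((2 * Real.pi : ℂ) ^ (-s) * Complex.Gamma s) ^ Module.finrank ℚ K *
          LFunction A B T D K s

end HasseWeil

/-! ### Local degrees -/

/-- The absolute local degree `[F_w : ℚ_p] = e(w/p) f(w/p)` of a finite place `w` of `F`. -/
noncomputable def localDegree {F : Type} [Field F] [NumberField F]
    (w : HeightOneSpectrum (𝓞 F)) : ℕ :=
  w.asIdeal.ramificationIdx (𝓞 ℚ) * w.asIdeal.inertiaDeg (𝓞 ℚ)

/-- `F` is thin: at most `ρ [F : ℚ]` infinite places are real, and the local degrees at all the places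
above the primes `p ∈ V` outside `T` are divisible by `2 ^ i`. -/
def Thin (ρ : ℝ) (i : ℕ) (V T : Finset ℕ) (F : Type) [Field F] [NumberField F] : Prop :=
  (InfinitePlace.nrRealPlaces F : ℝ) ≤ ρ * Module.finrank ℚ F ∧
    ∀ p ∈ V, p.Prime → p ∉ T →
      ∀ w : HeightOneSpectrum (𝓞 F), ((p : ℕ) : 𝓞 F) ∈ w.asIdeal → 2 ^ i ∣ localDegree w

/-! ### Comparison with the definitions of the proof -/

private theorem tracePower_eq (a p : ℝ) (f : ℕ) :
    tracePower a p f = Pool.Agent.QD.luc a p f := by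
  induction f using Nat.twoStepInduction with
  | zero => rfl
  | one => rfl
  | more f h1 h2 => rw [tracePower, Pool.Agent.QD.luc, h1, h2]

/-- the norm of a place is a power of a prime contained in it -/
private theorem norm_eq {K : Type} [Field K] [NumberField K] (v : HeightOneSpectrum (𝓞 K)) :
    ∃ p f : ℕ, p.Prime ∧ 1 ≤ f ∧ norm v = p ^ f ∧ ((p : ℕ) : 𝓞 K) ∈ v.asIdeal := by
  have : v.asIdeal.IsMaximal := v.isMaximal
  let _ : Field (𝓞 K ⧸ v.asIdeal) := Ideal.Quotient.field v.asIdeal
  have : Finite (𝓞 K ⧸ v.asIdeal) := Ideal.finiteQuotientOfFreeOfNeBot v.asIdeal v.ne_bot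
  let _ : Fintype (𝓞 K ⧸ v.asIdeal) := Fintype.ofFinite _
  have hpp : IsPrimePow (norm v) := by
    have h1 := Fintype.isPrimePow_card_of_field (α := 𝓞 K ⧸ v.asIdeal)
    have h2 : norm v = Fintype.card (𝓞 K ⧸ v.asIdeal) := by
      unfold norm
      rw [Ideal.absNorm_apply, Submodule.cardQuot_apply, Nat.card_eq_fintype_card]
    rw [h2]
    exact h1
  rw [isPrimePow_nat_iff] at hpp
  obtain ⟨p, f, hp, hf, hpf⟩ := hpp
  refine ⟨p, f, hp, hf, hpf.symm, ?_⟩
  have h1 : ((norm v : ℕ) : 𝓞 K) ∈ v.asIdeal := Ideal.absNorm_mem v.asIdeal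
  rw [← hpf, Nat.cast_pow] at h1
  exact v.isPrime.mem_of_pow_mem _ h1

private theorem trace_eq (A B : ℤ) {K : Type} [Field K] [NumberField K] (T : Finset ℕ)
    (v : HeightOneSpectrum (𝓞 K)) (hv : AwayFrom T v) :
    trace A B v = Pool.Agent.QD.aT A B T (Pool.Agent.HWR.nrm v) := by
  obtain ⟨p, f, hp, hf, hpf, hmem⟩ := norm_eq v
  have hpT : p ∉ T := fun h => hv p h hmem
  have h1 : (norm v).minFac = p := by rw [hpf]; exact hp.pow_minFac (by omega)
  have h2 : Pool.Agent.HWR.nrm v = norm v := rfl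
  unfold trace Pool.Agent.QD.aT
  rw [h2, h1, if_pos ⟨hp, hpT, f, hf, hpf⟩, tracePower_eq]
  rfl

private theorem goodPart_eq (A B : ℤ) (K : Type) [Field K] [NumberField K] (T : Finset ℕ)
    (s : ℂ) : goodPart A B K T s = Pool.Agent.HWR.LT K (Pool.Agent.QD.aT A B T) T s := by
  unfold goodPart Pool.Agent.HWR.LT
  refine tprod_congr fun v => ?_
  unfold eulerFactor Pool.Agent.HWR.efac
  rw [trace_eq A B T v.1 v.2]
  rfl

private def toLoc (T : Finset ℕ) (D : LocalData) : Pool.Agent.QD.LocData T where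
  sgn := D.rootNumber
  cond := D.conductor
  pol := D.polynomial
  sgn_iso := D.rootNumber_iso
  cond_iso := D.conductor_iso
  pol_iso := D.polynomial_iso
  sgn_prod := D.rootNumber_prod
  cond_prod := D.conductor_prod
  pol_prod := D.polynomial_prod
  sgn_sq := D.rootNumber_sign
  cond_pos := D.conductor_pos
  pol_zero := D.polynomial_zero
  pol_root := D.polynomial_root

private theorem hw_iff (A B : ℤ) (T : Finset ℕ) (D : LocalData) (K : Type) [Field K]
    [NumberField K] :
    HasseWeil A B T D K ↔ (toLoc T D).HW (Pool.Agent.QD.aT A B T) K := by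
  have h1 : (rootNumber T D K : ℂ) = (toLoc T D).w K := by
    unfold rootNumber Pool.Agent.QD.LocData.w Pool.Agent.QD.LocData.sg
    push_cast
    rfl
  unfold HasseWeil Pool.Agent.QD.LocData.HW
  rw [h1]
  have h2 : ∀ s : ℂ, ((conductorConstant T D K : ℝ) : ℂ) ^ (s / 2) *
        ((2 * Real.pi : ℂ) ^ (-s) * Complex.Gamma s) ^ Module.finrank ℚ K *
          LFunction A B T D K s = (toLoc T D).Lam (Pool.Agent.QD.aT A B T) K s := by
    intro s
    unfold LFunction
    rw [goodPart_eq]
    rfl
  simp only [h2]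
  rfl

private theorem pm_iff (A B : ℤ) (T : Finset ℕ) (D : LocalData) (K : Type) [Field K]
    [NumberField K] :
    HasseWeilUpToSign A B T D K ↔
      Pool.Agent.MD.HWpm (toLoc T D) (Pool.Agent.QD.aT A B T) K := by
  unfold HasseWeilUpToSign Pool.Agent.MD.HWpm
  have h2 : ∀ s : ℂ, ((conductorConstant T D K : ℝ) : ℂ) ^ (s / 2) *
        ((2 * Real.pi : ℂ) ^ (-s) * Complex.Gamma s) ^ Module.finrank ℚ K *
          LFunction A B T D K s = (toLoc T D).Lam (Pool.Agent.QD.aT A B T) K s := by
    intro s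
    unfold LFunction
    rw [goodPart_eq]
    rfl
  simp only [h2]
  rfl

/-- `Q = 1`: the Hasse-Weil conjecture -/
theorem upToPoles (A B : ℤ) (T : Finset ℕ) (D : LocalData) (K : Type) [Field K]
    [NumberField K] (h : HasseWeil A B T D K) {r : ℕ} (hr : 0 < r) :
    Multiplier (fun _ => 1) ∧ HasseWeilUpToPoles A B T D K (fun _ => 1) r := by
  refine ⟨⟨differentiable_const _, ⟨0, one_ne_zero⟩, 0, 0, fun s => by simp⟩, ?_⟩
  obtain ⟨G, h1, h2, h3, h4⟩ := h
  refine ⟨G, h1, h2, fun s => ?_, fun s _ _ => ?_, fun s hs => ?_⟩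
  · rw [mul_one, mul_one]
    exact h3 s
  · have h5 : analyticOrderAt (fun _ : ℂ => (1 : ℂ)) s = 0 :=
      analyticAt_const.analyticOrderAt_eq_zero.2 one_ne_zero
    rw [h5]
    have h6 : (0 : ℕ∞) < (r : ℕ∞) := by exact_mod_cast hr
    exact lt_of_lt_of_le h6 le_add_self
  · rw [one_mul]
    exact h4 s hs

private theorem adm_of {Q : ℂ → ℂ} (h : Multiplier Q) : Pool.Agent.UPQ.IsAdm Q :=
  ⟨h.entire, h.ne_zero, h.order⟩

private theorem poles_of (A B : ℤ) (T : Finset ℕ) (D : LocalData) (K : Type) [Field K]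
    [NumberField K] {Q : ℂ → ℂ} {r : ℕ} (h : HasseWeilUpToPoles A B T D K Q r) :
    Pool.Agent.UPQ.HWG (toLoc T D) (Pool.Agent.QD.aT A B T) Q K ∧
      ∀ z : ℂ, 1 ≤ z.re → z.re ≤ 3 / 2 →
        Pool.Agent.UPQ.PoleLe (toLoc T D) (Pool.Agent.QD.aT A B T) Q K z (r - 1) := by
  have h1 : (rootNumber T D K : ℂ) = (toLoc T D).w K := by
    unfold rootNumber Pool.Agent.QD.LocData.w Pool.Agent.QD.LocData.sg
    push_cast
    rfl
  have h2 : ∀ s : ℂ, ((conductorConstant T D K : ℝ) : ℂ) ^ (s / 2) *
        ((2 * Real.pi : ℂ) ^ (-s) * Complex.Gamma s) ^ Module.finrank ℚ K *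
          LFunction A B T D K s = (toLoc T D).Lam (Pool.Agent.QD.aT A B T) K s := by
    intro s
    unfold LFunction
    rw [goodPart_eq]
    rfl
  obtain ⟨G, h3, h4, h5, h6, h7⟩ := h
  simp only [h2] at h7
  rw [h1] at h5
  refine ⟨⟨G, h3, h4, h7, h5⟩, fun z hz1 hz2 G' hG' => ?_⟩
  rw [Pool.Agent.UPQ.isG_unique (toLoc T D) hG' ⟨h3, h7⟩]
  have h8 := h6 z hz1 hz2
  cases r with
  | zero =>
    rw [Nat.cast_zero, add_zero] at h8
    exact h8.le.trans le_self_add
  | succ r =>
    rw [Nat.add_sub_cancel]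
    rw [Nat.cast_add, Nat.cast_one, ← add_assoc] at h8
    exact Order.le_of_lt_add_one h8

private theorem luc_int (x : ℤ) (p : ℕ) (f : ℕ) :
    ∃ n : ℤ, Pool.Agent.QD.luc (x : ℝ) (p : ℝ) f = n := by
  induction f using Nat.twoStepInduction with
  | zero => exact ⟨2, by simp [Pool.Agent.QD.luc]⟩
  | one => exact ⟨x, rfl⟩
  | more f h1 h2 =>
    obtain ⟨n1, h1⟩ := h1
    obtain ⟨n2, h2⟩ := h2
    refine ⟨x * n2 - p * n1, ?_⟩
    rw [Pool.Agent.QD.luc, h1, h2]
    push_cast
    ring

private theorem aT_int (A B : ℤ) (T : Finset ℕ) (q : ℕ) :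
    ∃ n : ℤ, Pool.Agent.QD.aT A B T q = n := by
  unfold Pool.Agent.QD.aT
  split_ifs with h
  · exact luc_int _ _ _
  · exact ⟨0, by simp⟩

private theorem exc {k : ℕ} (X : Fin k → Type) [∀ l, Field (X l)] [∀ l, NumberField (X l)]
    (F : Pool.Agent.H73.AL.NF)
    (h : ∀ Y ∈ List.ofFn (fun l => (⟨X l⟩ : Pool.Agent.H73.AL.NF)), ¬ Nonempty (Y.F ≃+* F.F)) :
    ∀ l, IsEmpty (F.F ≃+* X l) := by
  intro l
  refine ⟨fun e => ?_⟩
  exact h ⟨X l⟩ (List.mem_ofFn.2 ⟨l, rfl⟩) ⟨e.symm⟩

/-- There is a function `bound` such that, for every elliptic curve `E : y² = x³ + A x + B` over `ℚ`,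
all finite sets `V` of primes, all `i`, `n`, `m`, `j`, all real `ρ ≥ 0` and finitely many number fields
`X l` (the exceptions, up to isomorphism): if `E` satisfies the Hasse-Weil conjecture over the totally real
fields of degree at most `bound i n m ρ` and over the quadratic extensions of the totally real fields of
degree `2^m` (this is known), and if for every thin field `F` (at most `ρ [F : ℚ]` real places, local
degrees divisible by `2^i`) with `2^(m+1) ∣ [F : ℚ] ≤ 2^j bound i n m ρ`, not isomorphic to an `X l`, there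
is a multiplier `Q` such that `E` satisfies, over `F` and over the quadratic extensions of `F` of degree at
most `2^j bound i n m ρ` which are not isomorphic to an `X l`, the Hasse-Weil conjecture up to poles at the
zeros of `Q`, of order less than `2^j`, then for all number fields `K` of degree at most `n` the Hasse-Weil
conjecture holds over `K` up to the sign, over the quadratic extensions of `K`, over `K` if `K` is totally
complex, and over `K` if `ρ > 0`. -/
theorem result : ∃ bound : ℕ → ℕ → ℕ → ℝ → ℕ, ∀ (A B : ℤ) (T : Finset ℕ), (∀ p ∈ T, p.Prime) →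
    (∀ p : ℕ, p.Prime → p < 101 → p ∈ T) →
    (∀ p : ℕ, p.Prime → (p : ℤ) ∣ 4 * A ^ 3 + 27 * B ^ 2 → p ∈ T) →
    ∀ (D : LocalData) (V : Finset ℕ) (k : ℕ) (X : Fin k → Type) [∀ l, Field (X l)]
      [∀ l, NumberField (X l)] (i n m j : ℕ) (ρ : ℝ), 0 ≤ ρ →
    (∀ (R : Type) [Field R] [NumberField R], InfinitePlace.nrComplexPlaces R = 0 →
      Module.finrank ℚ R ≤ bound i n m ρ → HasseWeil A B T D R) →
    (∀ (R : Type) [Field R] [NumberField R], InfinitePlace.nrComplexPlaces R = 0 →
      Module.finrank ℚ R = 2 ^ m → ∀ (F : Type) [Field F] [NumberField F] [Algebra R F],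
        Module.finrank R F = 2 → HasseWeil A B T D F) →
    (∀ (F : Type) [Field F] [NumberField F], Thin ρ i V T F → 2 ^ (m + 1) ∣ Module.finrank ℚ F →
      Module.finrank ℚ F ≤ 2 ^ j * bound i n m ρ → (∀ l, IsEmpty (F ≃+* X l)) →
      ∃ Q : ℂ → ℂ, Multiplier Q ∧ HasseWeilUpToPoles A B T D F Q (2 ^ j) ∧
        ∀ (L : Type) [Field L] [NumberField L] [Algebra F L], Module.finrank F L = 2 →
          Module.finrank ℚ L ≤ 2 ^ j * bound i n m ρ → (∀ l, IsEmpty (L ≃+* X l)) →
          HasseWeilUpToPoles A B T D L Q (2 ^ j)) →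
    ∀ (K : Type) [Field K] [NumberField K], Module.finrank ℚ K ≤ n →
      HasseWeilUpToSign A B T D K ∧
      (∀ (F : Type) [Field F] [NumberField F] [Algebra K F], Module.finrank K F = 2 →
        HasseWeil A B T D F) ∧
      (InfinitePlace.nrRealPlaces K = 0 → HasseWeil A B T D K) ∧
      (0 < ρ → HasseWeil A B T D K) := by
  choose c hc using Pool.Agent.GK.algY
  choose b hb using Pool.Agent.GK.clW
  choose e he using Pool.Agent.GR.algR
  refine ⟨fun i n m ρ => Pool.Agent.GR.bTr (fun i n => c i n + n) b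
    (fun i => e i ⌈2 / ρ⌉₊ (m + 1)) i n m + 2 ^ m, ?_⟩
  intro A B T hTp hT hbad D V k X _ _ i n m j ρ hρ hR hR2 H K _ _ hK
  beta_reduce at hR H
  generalize hN : Pool.Agent.GR.bTr (fun i n => c i n + n) b
    (fun i => e i ⌈2 / ρ⌉₊ (m + 1)) i n m = N at hR H
  have h2m : 0 < 2 ^ m := by positivity
  have hQ : HasseWeil A B T D ℚ := by
    refine hR ℚ ?_ ?_
    · have h1 := InfinitePlace.card_add_two_mul_card_eq_rank ℚ
      rw [Module.finrank_self] at h1
      omega
    · rw [Module.finrank_self]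
      omega
  have key := Pool.Agent.GR.v_few (c := fun i n => c i n + n) (b := b)
    (e := fun i => e i ⌈2 / ρ⌉₊ (m + 1))
    (fun i => Pool.Agent.GK.algY_of (hc i)) hb hTp hT (toLoc T D)
    (Pool.Agent.QD.aT_bd A B T hT hbad) (Pool.Agent.QD.aT_frob A B T) (aT_int A B T) hρ V
    (List.ofFn fun l => (⟨X l⟩ : Pool.Agent.H73.AL.NF)) i n m j ⌈2 / ρ⌉₊
    (fun i => Pool.Agent.GR.algR_of (he i ⌈2 / ρ⌉₊ (m + 1))) ((hw_iff A B T D ℚ).1 hQ)
    (fun R _ _ h1 h2 => ⟨(hw_iff A B T D R).1 (hR R h1 (by rw [h2]; exact Nat.le_add_left _ _)),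
      fun F _ _ _ h3 => (hw_iff A B T D F).1 (hR2 R h1 h2 F h3)⟩)
    (fun F h1 h2 => (hw_iff A B T D F.F).1
      (hR F.F h1 ((h2.trans (le_of_eq hN)).trans (Nat.le_add_right _ _))))
    (fun F h1 h2 h3 h4 => ?_) K hK
  · refine ⟨(pm_iff A B T D K).2 key.1.1, fun F _ _ _ h1 => (hw_iff A B T D F).2 (key.1.2 F h1),
      fun h1 => (hw_iff A B T D K).2 (key.2.1 h1), fun h1 => (hw_iff A B T D K).2 (key.2.2 ?_)⟩
    have h2 := mul_le_mul_of_nonneg_left (Nat.le_ceil (2 / ρ)) hρ
    rwa [mul_div_cancel₀ _ h1.ne'] at h2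
  · rw [hN] at h2 ⊢
    have h5 : 2 ^ j * N ≤ 2 ^ j * (N + 2 ^ m) := Nat.mul_le_mul_left _ (Nat.le_add_right _ _)
    obtain ⟨Q, g1, g2, g3⟩ := H F.F h3 h1 (h2.trans h5) (exc X F h4)
    exact ⟨Q, adm_of g1, (poles_of A B T D F.F g2).1, (poles_of A B T D F.F g2).2,
      fun L _ _ _ g4 g5 g6 =>
        (poles_of A B T D L (g3 L g4 (g5.trans h5) (exc X ⟨L⟩ g6))).1⟩

end Pool.Agent.Results.MP_bf9450_nt.BoundedThinFields
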