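import Pool.Agent.GKR.X.Fin
import Pool.Agent.GKR.X.Lst
import Pool.Agent.GKR.Cor
import Pool.Agent.GKR.Step
import Pool.Agent.GJ.X.Lst
import Pool.Agent.GJ.H.Alg
import Pool.Agent.GK.H.Alg
import Pool.Agent.QD.F.Trace

/-!
# The Hasse-Weil conjecture and number fields with few real places and divisible local degrees

`E : y² = x³ + A x + B` with `A, B ∈ ℤ` (every elliptic curve over `ℚ` has such an equation), `T` a
finite set of primes containing the primes below `101` and those dividing `4A³ + 27B²`, so that `E`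
has good reduction outside `T`.  The Hasse-Weil conjecture for `E` over a number field `F`: entire
completed L-function, of finite order in vertical strips, with its functional equation with the
exact sign.  For totally real `F` and for the quadratic extensions of totally real fields it is a known
theorem (modularity and base change).

There is a function `bound : ℕ → ℕ → ℕ → ℝ → ℕ` with the following property.  A multiplier is an entire
function of finite order, not identically zero, for instance a nonzero polynomial.  Let `V` be ANY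
finite set of primes, `X l` finitely many number fields, `i`, `n`, `m`, `j` natural numbers, `ρ > 0` a
real number, and let `R` be the class of the number fields `F` with
`2^(m+1) n ∣ [F : ℚ] ≤ 2^j bound i n m ρ` which are not isomorphic to an `X l`, which have at most
`ρ [F : ℚ]` real places, and whose local degrees above the primes of `V` outside `T` are ALL divisible
by `2^i`.  Suppose that `E` satisfies the Hasse-Weil conjecture over `ℚ`, over all the totally real
fields `F` with `2^m n ∣ [F : ℚ] ≤ bound i n m ρ`, and, if `ρ < 1`, over their quadratic extensions (all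
this is known), and that for all `F` in `R` there is a multiplier `Q` such that, for `L = F` and for all
the quadratic extensions `L` of `F` in `R`: `Q(s) Λ(E/L, s)` extends to an entire function of finite
order in vertical strips, `Λ(E/L, s)` satisfies its functional equation, and its poles with
`1 ≤ Re s ≤ 3/2` have order less than `2^j`.  (For `Q = 1` and `j = 0` this is the Hasse-Weil conjecture
over the fields of `R`, see `upToPoles`.)  Then `E` satisfies the Hasse-Weil conjecture over EVERY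
number field of degree `n`.  The function `bound` does not depend on `E`, `T`, `V`, `X`, `j` and the
multipliers.

So a failure of the Hasse-Weil conjecture over some field forces poles of unbounded orders, or too many
poles, or the failure of a functional equation, over fields of bounded degree whose number of real places
is arbitrarily small compared with the degree and whose local degrees above `V` are all divisible by a given
power of two.
-/

namespace Pool.Agent.Results.MP_bf9450_nt.EvenLocalDegrees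

open NumberField IsDedekindDomain

open scoped TensorProduct

/-! ### The places of good reduction -/

/-- `a_p = p + 1 - #E(𝔽_p)` for `E : y² = x³ + A x + B`; with the point at infinity `#E(𝔽_p)` is the
number of affine solutions plus one. -/
noncomputable def tracePrime (A B : ℤ) (p : ℕ) : ℤ :=
  (p : ℤ) - Nat.card {P : ZMod p × ZMod p // P.2 ^ 2 = P.1 ^ 3 + (A : ZMod p) * P.1 + (B : ZMod p)}

/-- `α^f + β^f`, where `α + β = a` and `α β = p`, by the recursion for the power sums: if `a` is the
trace of `Frob_p` (with determinant `p`), this is the trace of `Frob_p^f`. -/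
noncomputable def tracePower (a p : ℝ) : ℕ → ℝ
  | 0 => 2
  | 1 => a
  | (f + 2) => a * tracePower a p (f + 1) - p * tracePower a p f

section Places

variable {K : Type} [Field K] [NumberField K]

/-- The finite place `v` of `K` does not lie above a prime of `T`. -/
def AwayFrom (T : Finset ℕ) (v : HeightOneSpectrum (𝓞 K)) : Prop :=
  ∀ p ∈ T, ((p : ℕ) : 𝓞 K) ∉ v.asIdeal

/-- The norm `N v` of a finite place. -/
noncomputable def norm (v : HeightOneSpectrum (𝓞 K)) : ℕ := Ideal.absNorm v.asIdeal

/-- The trace `a_v` of `Frob_v` on the Tate module of `E`, for a place `v` of good reduction above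
`p` with `N v = p^f`: as `Frob_v = Frob_p^f`, it is `α^f + β^f` where `α + β = a_p`, `α β = p`. -/
noncomputable def trace (A B : ℤ) (v : HeightOneSpectrum (𝓞 K)) : ℝ :=
  tracePower (tracePrime A B (norm v).minFac) (norm v).minFac
    ((norm v).factorization (norm v).minFac)

/-- The Euler factor `(1 - a_v N v^(-s) + N v^(1-2s))⁻¹` of `L(E/K, s)` at a good place `v`. -/
noncomputable def eulerFactor (A B : ℤ) (v : HeightOneSpectrum (𝓞 K)) (s : ℂ) : ℂ :=
  (1 - (trace A B v : ℂ) * (norm v : ℂ) ^ (-s) + (norm v : ℂ) ^ (1 - 2 * s))⁻¹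

end Places

/-- The product of the Euler factors of `L(E/K, s)` at the finite places of `K` not above `T`. -/
noncomputable def goodPart (A B : ℤ) (K : Type) [Field K] [NumberField K] (T : Finset ℕ)
    (s : ℂ) : ℂ :=
  ∏' v : {v : HeightOneSpectrum (𝓞 K) // AwayFrom T v}, eulerFactor A B v.1 s

/-! ### The places above `T` -/

/-- Local data above the primes of `T`.  For a number field `K` and a prime `p` let
`R = ℚ_p ⊗ K`, the product of the completions `K_v`, `v` above `p`.  The data are: the product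
`rootNumber p R` of the local root numbers `w(E/K_v)`, the norm `conductor p R` of the `p`-part of
the conductor of `E/K`, and the product `polynomial p R` of the polynomials
`det(1 - Frob_v X^(f_v) | V_ℓ(E)^(I_v))`, whose value at `X = p^(-s)` is the inverse of the product
of the Euler factors above `p`.  All that is used: they depend only on the isomorphism class of the
`ℚ_p`-algebra `R`, they are multiplicative on products, the signs are `± 1`, the norms are positive,
and the polynomials have constant coefficient `1` and no root of absolute value less than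
`p^(-1/2)`. -/
structure LocalData where
  rootNumber : ∀ (p : ℕ) [Fact p.Prime] (R : Type) [CommRing R] [Algebra ℚ_[p] R], ℤ
  conductor : ∀ (p : ℕ) [Fact p.Prime] (R : Type) [CommRing R] [Algebra ℚ_[p] R], ℝ
  polynomial : ∀ (p : ℕ) [Fact p.Prime] (R : Type) [CommRing R] [Algebra ℚ_[p] R], Polynomial ℂ
  rootNumber_iso : ∀ (p : ℕ) [Fact p.Prime] (R R' : Type) [CommRing R] [Algebra ℚ_[p] R]
    [CommRing R'] [Algebra ℚ_[p] R'] [Module.Finite ℚ_[p] R] [Module.Finite ℚ_[p] R'],
    Nonempty (R ≃ₐ[ℚ_[p]] R') → rootNumber p R = rootNumber p R'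
  conductor_iso : ∀ (p : ℕ) [Fact p.Prime] (R R' : Type) [CommRing R] [Algebra ℚ_[p] R]
    [CommRing R'] [Algebra ℚ_[p] R'] [Module.Finite ℚ_[p] R] [Module.Finite ℚ_[p] R'],
    Nonempty (R ≃ₐ[ℚ_[p]] R') → conductor p R = conductor p R'
  polynomial_iso : ∀ (p : ℕ) [Fact p.Prime] (R R' : Type) [CommRing R] [Algebra ℚ_[p] R]
    [CommRing R'] [Algebra ℚ_[p] R'] [Module.Finite ℚ_[p] R] [Module.Finite ℚ_[p] R'],
    Nonempty (R ≃ₐ[ℚ_[p]] R') → polynomial p R = polynomial p R'
  rootNumber_prod : ∀ (p : ℕ) [Fact p.Prime] (R R' : Type) [CommRing R] [Algebra ℚ_[p] R]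
    [CommRing R'] [Algebra ℚ_[p] R'] [Module.Finite ℚ_[p] R] [Module.Finite ℚ_[p] R'],
    rootNumber p (R × R') = rootNumber p R * rootNumber p R'
  conductor_prod : ∀ (p : ℕ) [Fact p.Prime] (R R' : Type) [CommRing R] [Algebra ℚ_[p] R]
    [CommRing R'] [Algebra ℚ_[p] R'] [Module.Finite ℚ_[p] R] [Module.Finite ℚ_[p] R'],
    conductor p (R × R') = conductor p R * conductor p R'
  polynomial_prod : ∀ (p : ℕ) [Fact p.Prime] (R R' : Type) [CommRing R] [Algebra ℚ_[p] R]
    [CommRing R'] [Algebra ℚ_[p] R'] [Module.Finite ℚ_[p] R] [Module.Finite ℚ_[p] R'],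
    polynomial p (R × R') = polynomial p R * polynomial p R'
  rootNumber_sign : ∀ (p : ℕ) [Fact p.Prime] (R : Type) [CommRing R] [Algebra ℚ_[p] R]
    [Module.Finite ℚ_[p] R], rootNumber p R = 1 ∨ rootNumber p R = -1
  conductor_pos : ∀ (p : ℕ) [Fact p.Prime] (R : Type) [CommRing R] [Algebra ℚ_[p] R]
    [Module.Finite ℚ_[p] R], 0 < conductor p R
  polynomial_zero : ∀ (p : ℕ) [Fact p.Prime] (R : Type) [CommRing R] [Algebra ℚ_[p] R]
    [Module.Finite ℚ_[p] R], (polynomial p R).eval 0 = 1
  polynomial_root : ∀ (p : ℕ) [Fact p.Prime] (R : Type) [CommRing R] [Algebra ℚ_[p] R]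
    [Module.Finite ℚ_[p] R] (z : ℂ), (polynomial p R).eval z = 0 →
    (p : ℝ) ^ (-(1 / 2) : ℝ) ≤ ‖z‖

section HasseWeil

variable (A B : ℤ) (T : Finset ℕ) (D : LocalData) (K : Type) [Field K] [NumberField K]

open Classical in
/-- The global root number `w(E/K)`: `-1` for every archimedean place, `1` for every finite place
of good reduction, and the local root numbers above `T`. -/
noncomputable def rootNumber : ℤ :=
  (-1) ^ (InfinitePlace.nrRealPlaces K + InfinitePlace.nrComplexPlaces K) *
    ∏ p ∈ T, if h : p.Prime then haveI := Fact.mk h; D.rootNumber p (ℚ_[p] ⊗[ℚ] K) else 1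

open Classical in
/-- `A_{E/K} = disc(K)² N`, `N` the norm of the conductor of `E/K`. -/
noncomputable def conductorConstant : ℝ :=
  (NumberField.discr K : ℝ) ^ 2 *
    ∏ p ∈ T, if h : p.Prime then haveI := Fact.mk h; D.conductor p (ℚ_[p] ⊗[ℚ] K) else 1

open Classical in
/-- The inverse of the product of the Euler factors of `L(E/K, s)` above `T`. -/
noncomputable def badPartInv (s : ℂ) : ℂ :=
  ∏ p ∈ T, if h : p.Prime then haveI := Fact.mk h;
    (D.polynomial p (ℚ_[p] ⊗[ℚ] K)).eval ((p : ℂ) ^ (-s)) else 1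

/-- `L(E/K, s)` as an Euler product, `Re s > 3/2`. -/
noncomputable def LFunction (s : ℂ) : ℂ := goodPart A B K T s / badPartInv T D K s

/-- Finite order in vertical strips: `|F(s)| ≤ exp (C (1 + |Im s|)^c)` for `a ≤ Re s ≤ b`.  This is
implied by boundedness in vertical strips, and also by finite order. -/
def FiniteOrderInStrips (F : ℂ → ℂ) : Prop :=
  ∀ a b : ℝ, ∃ c C : ℝ, ∀ s : ℂ, a ≤ s.re → s.re ≤ b →
    ‖F s‖ ≤ Real.exp (C * (1 + |s.im|) ^ c)

/-- The Hasse-Weil conjecture for `E` over `K`: the completed L-function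
`Λ(E/K, s) = A_{E/K}^(s/2) ((2π)^(-s) Γ(s))^[K:ℚ] L(E/K, s)` extends to an entire function, of finite
order in vertical strips, and `Λ(E/K, s) = w(E/K) Λ(E/K, 2 - s)`.  (Then `L(E/K, s)` is entire
too, as `1/Γ` is entire.) -/
def HasseWeil : Prop :=
  ∃ Lam : ℂ → ℂ, Differentiable ℂ Lam ∧ FiniteOrderInStrips Lam ∧
    (∀ s : ℂ, Lam s = (rootNumber T D K : ℂ) * Lam (2 - s)) ∧
    ∀ s : ℂ, 3 / 2 < s.re →
      Lam s = ((conductorConstant T D K : ℝ) : ℂ) ^ (s / 2) *
        ((2 * Real.pi : ℂ) ^ (-s) * Complex.Gamma s) ^ Module.finrank ℚ K *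
          LFunction A B T D K s

/-- The multipliers: entire functions of finite order which are not identically zero.  Examples: the
nonzero polynomials. -/
structure Multiplier (Q : ℂ → ℂ) : Prop where
  entire : Differentiable ℂ Q
  ne_zero : ∃ s : ℂ, Q s ≠ 0
  order : ∃ c C : ℝ, ∀ s : ℂ, ‖Q s‖ ≤ Real.exp (C * (1 + ‖s‖) ^ c)

/-- The Hasse-Weil conjecture for `E` over `K` up to poles at the zeros of `Q`, of order less than
`r`: `Q(s) Λ(E/K, s)` extends to an entire function `G(s)`, of finite order in vertical strips; the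
meromorphic function `Λ = G / Q` satisfies `Λ(E/K, s) = w(E/K) Λ(E/K, 2 - s)`, and its poles with
`1 ≤ Re s ≤ 3/2` have order less than `r`.  (By the functional equation and by the Euler product
all poles are in `1/2 ≤ Re s ≤ 3/2`, symmetric to `Re s = 1`.) -/
def HasseWeilUpToPoles (Q : ℂ → ℂ) (r : ℕ) : Prop :=
  ∃ G : ℂ → ℂ, Differentiable ℂ G ∧ FiniteOrderInStrips G ∧
    (∀ s : ℂ, G s * Q (2 - s) = (rootNumber T D K : ℂ) * (G (2 - s) * Q s)) ∧
    (∀ s : ℂ, 1 ≤ s.re → s.re ≤ 3 / 2 → analyticOrderAt Q s < analyticOrderAt G s + r) ∧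
    ∀ s : ℂ, 3 / 2 < s.re →
      G s = Q s * (((conductorConstant T D K : ℝ) : ℂ) ^ (s / 2) *
        ((2 * Real.pi : ℂ) ^ (-s) * Complex.Gamma s) ^ Module.finrank ℚ K *
          LFunction A B T D K s)

end HasseWeil

/-! ### Local degrees -/

/-- The absolute local degree `[F_w : ℚ_p] = e(w/p) f(w/p)` of a finite place `w` of `F`. -/
noncomputable def localDegree {F : Type} [Field F] [NumberField F]
    (w : HeightOneSpectrum (𝓞 F)) : ℕ :=
  w.asIdeal.ramificationIdx (𝓞 ℚ) * w.asIdeal.inertiaDeg (𝓞 ℚ)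

/-- `F` is thin: at most `ρ [F : ℚ]` infinite places are real, and the local degrees at all the places
above the primes `p ∈ V` outside `T` are divisible by `2 ^ i`. -/
def Thin (ρ : ℝ) (i : ℕ) (V T : Finset ℕ) (F : Type) [Field F] [NumberField F] : Prop :=
  (InfinitePlace.nrRealPlaces F : ℝ) ≤ ρ * Module.finrank ℚ F ∧
    ∀ p ∈ V, p.Prime → p ∉ T →
      ∀ w : HeightOneSpectrum (𝓞 F), ((p : ℕ) : 𝓞 F) ∈ w.asIdeal → 2 ^ i ∣ localDegree w

/-! ### Comparison with the definitions of the proof -/

private theorem tracePower_eq (a p : ℝ) (f : ℕ) :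
    tracePower a p f = Pool.Agent.QD.luc a p f := by
  induction f using Nat.twoStepInduction with
  | zero => rfl
  | one => rfl
  | more f h1 h2 => rw [tracePower, Pool.Agent.QD.luc, h1, h2]

/-- the norm of a place is a power of a prime contained in it -/
private theorem norm_eq {K : Type} [Field K] [NumberField K] (v : HeightOneSpectrum (𝓞 K)) :
    ∃ p f : ℕ, p.Prime ∧ 1 ≤ f ∧ norm v = p ^ f ∧ ((p : ℕ) : 𝓞 K) ∈ v.asIdeal := by
  have : v.asIdeal.IsMaximal := v.isMaximal
  let _ : Field (𝓞 K ⧸ v.asIdeal) := Ideal.Quotient.field v.asIdeal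
  have : Finite (𝓞 K ⧸ v.asIdeal) := Ideal.finiteQuotientOfFreeOfNeBot v.asIdeal v.ne_bot
  let _ : Fintype (𝓞 K ⧸ v.asIdeal) := Fintype.ofFinite _
  have hpp : IsPrimePow (norm v) := by
    have h1 := Fintype.isPrimePow_card_of_field (α := 𝓞 K ⧸ v.asIdeal)
    have h2 : norm v = Fintype.card (𝓞 K ⧸ v.asIdeal) := by
      unfold norm
      rw [Ideal.absNorm_apply, Submodule.cardQuot_apply, Nat.card_eq_fintype_card]
    rw [h2]
    exact h1
  rw [isPrimePow_nat_iff] at hpp
  obtain ⟨p, f, hp, hf, hpf⟩ := hpp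
  refine ⟨p, f, hp, hf, hpf.symm, ?_⟩
  have h1 : ((norm v : ℕ) : 𝓞 K) ∈ v.asIdeal := Ideal.absNorm_mem v.asIdeal
  rw [← hpf, Nat.cast_pow] at h1
  exact v.isPrime.mem_of_pow_mem _ h1

private theorem trace_eq (A B : ℤ) {K : Type} [Field K] [NumberField K] (T : Finset ℕ)
    (v : HeightOneSpectrum (𝓞 K)) (hv : AwayFrom T v) :
    trace A B v = Pool.Agent.QD.aT A B T (Pool.Agent.HWR.nrm v) := by
  obtain ⟨p, f, hp, hf, hpf, hmem⟩ := norm_eq v
  have hpT : p ∉ T := fun h => hv p h hmem
  have h1 : (norm v).minFac = p := by rw [hpf]; exact hp.pow_minFac (by omega)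
  have h2 : Pool.Agent.HWR.nrm v = norm v := rfl
  unfold trace Pool.Agent.QD.aT
  rw [h2, h1, if_pos ⟨hp, hpT, f, hf, hpf⟩, tracePower_eq]
  rfl

private theorem goodPart_eq (A B : ℤ) (K : Type) [Field K] [NumberField K] (T : Finset ℕ)
    (s : ℂ) : goodPart A B K T s = Pool.Agent.HWR.LT K (Pool.Agent.QD.aT A B T) T s := by
  unfold goodPart Pool.Agent.HWR.LT
  refine tprod_congr fun v => ?_
  unfold eulerFactor Pool.Agent.HWR.efac
  rw [trace_eq A B T v.1 v.2]
  rfl

private def toLoc (T : Finset ℕ) (D : LocalData) : Pool.Agent.QD.LocData T where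
  sgn := D.rootNumber
  cond := D.conductor
  pol := D.polynomial
  sgn_iso := D.rootNumber_iso
  cond_iso := D.conductor_iso
  pol_iso := D.polynomial_iso
  sgn_prod := D.rootNumber_prod
  cond_prod := D.conductor_prod
  pol_prod := D.polynomial_prod
  sgn_sq := D.rootNumber_sign
  cond_pos := D.conductor_pos
  pol_zero := D.polynomial_zero
  pol_root := D.polynomial_root

private theorem hw_iff (A B : ℤ) (T : Finset ℕ) (D : LocalData) (K : Type) [Field K]
    [NumberField K] :
    HasseWeil A B T D K ↔ (toLoc T D).HW (Pool.Agent.QD.aT A B T) K := by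
  have h1 : (rootNumber T D K : ℂ) = (toLoc T D).w K := by
    unfold rootNumber Pool.Agent.QD.LocData.w Pool.Agent.QD.LocData.sg
    push_cast
    rfl
  unfold HasseWeil Pool.Agent.QD.LocData.HW
  rw [h1]
  have h2 : ∀ s : ℂ, ((conductorConstant T D K : ℝ) : ℂ) ^ (s / 2) *
        ((2 * Real.pi : ℂ) ^ (-s) * Complex.Gamma s) ^ Module.finrank ℚ K *
          LFunction A B T D K s = (toLoc T D).Lam (Pool.Agent.QD.aT A B T) K s := by
    intro s
    unfold LFunction
    rw [goodPart_eq]
    rfl
  simp only [h2]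
  rfl

/-- `Q = 1`: the Hasse-Weil conjecture -/
theorem upToPoles (A B : ℤ) (T : Finset ℕ) (D : LocalData) (K : Type) [Field K]
    [NumberField K] (h : HasseWeil A B T D K) {r : ℕ} (hr : 0 < r) :
    Multiplier (fun _ => 1) ∧ HasseWeilUpToPoles A B T D K (fun _ => 1) r := by
  refine ⟨⟨differentiable_const _, ⟨0, one_ne_zero⟩, 0, 0, fun s => by simp⟩, ?_⟩
  · obtain ⟨G, h1, h2, h3, h4⟩ := h
    refine ⟨G, h1, h2, fun s => ?_, fun s _ _ => ?_, fun s hs => ?_⟩
    · rw [mul_one, mul_one]
      exact h3 s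
    · have h5 : analyticOrderAt (fun _ : ℂ => (1 : ℂ)) s = 0 :=
        analyticAt_const.analyticOrderAt_eq_zero.2 one_ne_zero
      rw [h5]
      have h6 : (0 : ℕ∞) < (r : ℕ∞) := by exact_mod_cast hr
      exact lt_of_lt_of_le h6 le_add_self
    · rw [one_mul]
      exact h4 s hs

private theorem adm_of {Q : ℂ → ℂ} (h : Multiplier Q) : Pool.Agent.UPQ.IsAdm Q :=
  ⟨h.entire, h.ne_zero, h.order⟩

private theorem poles_of (A B : ℤ) (T : Finset ℕ) (D : LocalData) (K : Type) [Field K]
    [NumberField K] {Q : ℂ → ℂ} {r : ℕ} (h : HasseWeilUpToPoles A B T D K Q r) :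
    Pool.Agent.UPQ.HWG (toLoc T D) (Pool.Agent.QD.aT A B T) Q K ∧
      ∀ z : ℂ, 1 ≤ z.re → z.re ≤ 3 / 2 →
        Pool.Agent.UPQ.PoleLe (toLoc T D) (Pool.Agent.QD.aT A B T) Q K z (r - 1) := by
  have h1 : (rootNumber T D K : ℂ) = (toLoc T D).w K := by
    unfold rootNumber Pool.Agent.QD.LocData.w Pool.Agent.QD.LocData.sg
    push_cast
    rfl
  have h2 : ∀ s : ℂ, ((conductorConstant T D K : ℝ) : ℂ) ^ (s / 2) *
        ((2 * Real.pi : ℂ) ^ (-s) * Complex.Gamma s) ^ Module.finrank ℚ K *
          LFunction A B T D K s = (toLoc T D).Lam (Pool.Agent.QD.aT A B T) K s := by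
    intro s
    unfold LFunction
    rw [goodPart_eq]
    rfl
  obtain ⟨G, h3, h4, h5, h6, h7⟩ := h
  simp only [h2] at h7
  rw [h1] at h5
  refine ⟨⟨G, h3, h4, h7, h5⟩, fun z hz1 hz2 G' hG' => ?_⟩
  rw [Pool.Agent.UPQ.isG_unique (toLoc T D) hG' ⟨h3, h7⟩]
  have h8 := h6 z hz1 hz2
  cases r with
  | zero =>
    rw [Nat.cast_zero, add_zero] at h8
    exact h8.le.trans le_self_add
  | succ r =>
    rw [Nat.add_sub_cancel]
    rw [Nat.cast_add, Nat.cast_one, ← add_assoc] at h8
    exact Order.le_of_lt_add_one h8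

private theorem luc_int (x : ℤ) (p : ℕ) (f : ℕ) :
    ∃ n : ℤ, Pool.Agent.QD.luc (x : ℝ) (p : ℝ) f = n := by
  induction f using Nat.twoStepInduction with
  | zero => exact ⟨2, by simp [Pool.Agent.QD.luc]⟩
  | one => exact ⟨x, rfl⟩
  | more f h1 h2 =>
    obtain ⟨n1, h1⟩ := h1
    obtain ⟨n2, h2⟩ := h2
    refine ⟨x * n2 - p * n1, ?_⟩
    rw [Pool.Agent.QD.luc, h1, h2]
    push_cast
    ring

private theorem aT_int (A B : ℤ) (T : Finset ℕ) (q : ℕ) :
    ∃ n : ℤ, Pool.Agent.QD.aT A B T q = n := by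
  unfold Pool.Agent.QD.aT
  split_ifs with h
  · exact luc_int _ _ _
  · exact ⟨0, by simp⟩

private theorem exc {k : ℕ} (X : Fin k → Type) [∀ i, Field (X i)] [∀ i, NumberField (X i)]
    (F : Pool.Agent.H73.AL.NF)
    (h : ∀ Y ∈ List.ofFn (fun i => (⟨X i⟩ : Pool.Agent.H73.AL.NF)), ¬ Nonempty (Y.F ≃+* F.F)) :
    ∀ i, IsEmpty (F.F ≃+* X i) := by
  intro i
  refine ⟨fun e => ?_⟩
  exact h ⟨X i⟩ (List.mem_ofFn.2 ⟨i, rfl⟩) ⟨e.symm⟩

/-- There is a function `bound` such that, for every elliptic curve `E : y² = x³ + A x + B` over `ℚ`,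
all finite sets `V` of primes, all `i`, `n`, `m`, `j`, all real `ρ > 0` and finitely many number fields
`X l` (the exceptions, up to isomorphism): let `R` be the class of the number fields `F` with
`2^(m+1) n ∣ [F : ℚ] ≤ 2^j bound i n m ρ`, with at most `ρ [F : ℚ]` real places, all of whose local degrees
above the primes of `V` outside `T` are divisible by `2^i`, and which are not isomorphic to an `X l`.  If
`E` satisfies the Hasse-Weil conjecture over `ℚ`, over the totally real fields `F` with
`2^m n ∣ [F : ℚ] ≤ bound i n m ρ`, and, if `ρ < 1`, over their quadratic extensions (this is known), and if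
for every `F` in `R` there is a multiplier `Q` such that `E` satisfies, over `F` and over the quadratic
extensions of `F` in `R`, the Hasse-Weil conjecture up to poles at the zeros of `Q`, of order less than
`2^j`, then `E` satisfies the Hasse-Weil conjecture over all number fields of degree `n`. -/
theorem result : ∃ bound : ℕ → ℕ → ℕ → ℝ → ℕ, ∀ (A B : ℤ) (T : Finset ℕ), (∀ p ∈ T, p.Prime) →
    (∀ p : ℕ, p.Prime → p < 101 → p ∈ T) →
    (∀ p : ℕ, p.Prime → (p : ℤ) ∣ 4 * A ^ 3 + 27 * B ^ 2 → p ∈ T) →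
    ∀ (D : LocalData) (V : Finset ℕ) (k : ℕ) (X : Fin k → Type) [∀ l, Field (X l)]
      [∀ l, NumberField (X l)] (i n m j : ℕ) (ρ : ℝ), 0 < ρ → HasseWeil A B T D ℚ →
    (∀ (F : Type) [Field F] [NumberField F], InfinitePlace.nrComplexPlaces F = 0 →
      2 ^ m * n ∣ Module.finrank ℚ F → Module.finrank ℚ F ≤ bound i n m ρ →
        HasseWeil A B T D F) →
    (ρ < 1 → ∀ (F : Type) [Field F] [NumberField F], InfinitePlace.nrComplexPlaces F = 0 →
      2 ^ m * n ∣ Module.finrank ℚ F → Module.finrank ℚ F ≤ bound i n m ρ →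
        ∀ (L : Type) [Field L] [NumberField L] [Algebra F L], Module.finrank F L = 2 →
          HasseWeil A B T D L) →
    (∀ (F : Type) [Field F] [NumberField F], Thin ρ i V T F →
      2 ^ (m + 1) * n ∣ Module.finrank ℚ F → Module.finrank ℚ F ≤ 2 ^ j * bound i n m ρ →
      (∀ l, IsEmpty (F ≃+* X l)) →
      ∃ Q : ℂ → ℂ, Multiplier Q ∧ HasseWeilUpToPoles A B T D F Q (2 ^ j) ∧
        ∀ (L : Type) [Field L] [NumberField L] [Algebra F L], Module.finrank F L = 2 →
          Module.finrank ℚ L ≤ 2 ^ j * bound i n m ρ → (∀ l, IsEmpty (L ≃+* X l)) →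
          HasseWeilUpToPoles A B T D L Q (2 ^ j)) →
    ∀ (K : Type) [Field K] [NumberField K], Module.finrank ℚ K = n → HasseWeil A B T D K := by
  choose b1 h1 using Pool.Agent.GJ.alg
  choose b2 h2 using Pool.Agent.GK.algY
  choose b3 h3 using Pool.Agent.GKR.algM
  have hb : ∀ i M : ℕ, ∃ b : ℕ → ℕ, 0 < M → Pool.Agent.GKR.ClM i M b := by
    intro i M
    by_cases hM : 0 < M
    · obtain ⟨b, hb⟩ := Pool.Agent.GKR.clM i hM
      exact ⟨b, fun _ => hb⟩
    · exact ⟨fun _ => 0, fun h => absurd h hM⟩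
  choose b4 h4 using hb
  obtain ⟨bound, hv⟩ := Pool.Agent.GKR.v_all (fun i => Pool.Agent.GJ.algC_of (h1 i))
    (fun i => Pool.Agent.GK.algY_of (h2 i)) (fun i g => Pool.Agent.GKR.algM_of (h3 i g)) h4
  refine ⟨bound, ?_⟩
  intro A B T hTp hT hbad D V k X _ _ i n m j ρ hρ hQ hR hR2 H K _ _ hK
  refine (hw_iff A B T D K).2 (hv hTp hT (toLoc T D) (Pool.Agent.QD.aT A B T)
    (Pool.Agent.QD.aT_bd A B T hT hbad) (Pool.Agent.QD.aT_frob A B T) (aT_int A B T) V
    (List.ofFn fun l => (⟨X l⟩ : Pool.Agent.H73.AL.NF)) i n m j ρ hρ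
    ((hw_iff A B T D ℚ).1 hQ) (fun F g1 g2 g3 => (hw_iff A B T D F.F).1 (hR F.F g1 g2 g3))
    (fun hρ1 F _ _ g1 g2 g3 L _ _ _ g4 => (hw_iff A B T D L).1 (hR2 hρ1 F g1 g2 g3 L g4))
    (fun F g1 g2 g3 g4 => ?_) ⟨K⟩ hK)
  obtain ⟨Q, g5, g6, g7⟩ := H F.F g3 g1 g2 (exc X F g4)
  exact ⟨Q, adm_of g5, (poles_of A B T D F.F g6).1, (poles_of A B T D F.F g6).2,
    fun L _ _ _ g8 g9 g10 => (poles_of A B T D L (g7 L g8 g9 (exc X ⟨L⟩ g10))).1⟩

end Pool.Agent.Results.MP_bf9450_nt.EvenLocalDegrees
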