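import Pool.Agent.UPQ.H.Main
import Pool.Agent.UPQ.L.Int

/-!
# The Hasse-Weil conjecture from quadratic twists with poles at the zeros of one function

`E : y² = x³ + A x + B` with `A, B ∈ ℤ` (every elliptic curve over `ℚ` has such an equation), `T` a
finite set of primes containing the primes below `101` and those dividing `4A³ + 27B²`, so that `E`
has good reduction outside `T`.  Let `k` be any number field, `V` a finite set of finite places of
`k` not above `T` (possibly empty) and `N, j ≥ 0`.  An `n`-step field is a field obtained from `k` by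
`n` successive quadratic extensions; it is good if EVERY place above `V` has even local degree over
`k`.  A multiplier is an entire function of finite order which is not identically zero.

Suppose first that every good `n`-step field `F`, `n < N + j`, has a multiplier `Q` (which may depend
on `F`) such that for `L = F` and for all quadratic extensions `L` of `F` the function
`Q(s) Λ(E/L, s)` extends to an entire function, of finite order in vertical strips, and
`Λ(E/L, s) = w(E/L) Λ(E/L, 2 - s)`.  So these L-functions (essentially the L-functions of all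
quadratic twists of `E` over `F`) may have poles, but only at the zeros of one function `Q`.  Suppose
secondly that for every good `(N + j)`-step field `F` the function `Λ(E/F, s)` has the same properties
(for some multiplier), and poles of order less than `2^j` for `1 ≤ Re s ≤ 3/2`.

Then `E` satisfies the Hasse-Weil conjecture (entire completed L-function, of finite order in
vertical strips, with its functional equation) over all good `n`-step fields, `n ≤ N`; if `N ≥ 2`, also
over ALL `n`-step fields, `1 ≤ n ≤ N - 1`, and over `k` itself up to the sign of the functional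
equation: `Λ(E/k, s)` is entire, of finite order in vertical strips, and equal to `Λ(E/k, 2 - s)` or
to `-Λ(E/k, 2 - s)`.  (For `V = ∅` the field `k` is good, so that the sign is `w(E/k)`.)

For `N = 0`, `j = 1`, `V = ∅`: if the functions `Λ(E/L, s)` for `L = k` and for the quadratic
extensions `L` of `k` have their functional equations, and poles only at the zeros of one multiplier,
simple ones for `1 ≤ Re s ≤ 3/2`, then `Λ(E/k, s)` is entire.  For `Q = 1`, `j = 0` the hypothesis is
the Hasse-Weil conjecture over the good `n`-step fields, `n ≤ N` (see `multiplier_one`).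
-/

namespace Pool.Agent.Results.MP_bf9450_nt.UniformPoles

open NumberField IsDedekindDomain

open scoped TensorProduct

/-! ### The places of good reduction -/

/-- `a_p = p + 1 - #E(𝔽_p)` for `E : y² = x³ + A x + B`; with the point at infinity `#E(𝔽_p)` is the
number of affine solutions plus one. -/
noncomputable def tracePrime (A B : ℤ) (p : ℕ) : ℤ :=
  (p : ℤ) - Nat.card {P : ZMod p × ZMod p // P.2 ^ 2 = P.1 ^ 3 + (A : ZMod p) * P.1 + (B : ZMod p)}

/-- `α^f + β^f`, where `α + β = a` and `α β = p`, by the recursion for the power sums: if `a` is the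
trace of `Frob_p` (with determinant `p`), this is the trace of `Frob_p^f`. -/
noncomputable def tracePower (a p : ℝ) : ℕ → ℝ
  | 0 => 2
  | 1 => a
  | (f + 2) => a * tracePower a p (f + 1) - p * tracePower a p f

section Places

variable {K : Type} [Field K] [NumberField K]

/-- The finite place `v` of `K` does not lie above a prime of `T`. -/
def AwayFrom (T : Finset ℕ) (v : HeightOneSpectrum (𝓞 K)) : Prop :=
  ∀ p ∈ T, ((p : ℕ) : 𝓞 K) ∉ v.asIdeal

/-- The norm `N v` of a finite place. -/
noncomputable def norm (v : HeightOneSpectrum (𝓞 K)) : ℕ := Ideal.absNorm v.asIdeal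

/-- The trace `a_v` of `Frob_v` on the Tate module of `E`, for a place `v` of good reduction above
`p` with `N v = p^f`: as `Frob_v = Frob_p^f`, it is `α^f + β^f` where `α + β = a_p`, `α β = p`. -/
noncomputable def trace (A B : ℤ) (v : HeightOneSpectrum (𝓞 K)) : ℝ :=
  tracePower (tracePrime A B (norm v).minFac) (norm v).minFac
    ((norm v).factorization (norm v).minFac)

/-- The Euler factor `(1 - a_v N v^(-s) + N v^(1-2s))⁻¹` of `L(E/K, s)` at a good place `v`. -/
noncomputable def eulerFactor (A B : ℤ) (v : HeightOneSpectrum (𝓞 K)) (s : ℂ) : ℂ :=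
  (1 - (trace A B v : ℂ) * (norm v : ℂ) ^ (-s) + (norm v : ℂ) ^ (1 - 2 * s))⁻¹

end Places

/-- The product of the Euler factors of `L(E/K, s)` at the finite places of `K` not above `T`. -/
noncomputable def goodPart (A B : ℤ) (K : Type) [Field K] [NumberField K] (T : Finset ℕ)
    (s : ℂ) : ℂ :=
  ∏' v : {v : HeightOneSpectrum (𝓞 K) // AwayFrom T v}, eulerFactor A B v.1 s

/-! ### The places above `T` -/

/-- Local data above the primes of `T`.  For a number field `K` and a prime `p` let
`R = ℚ_p ⊗ K`, the product of the completions `K_v`, `v` above `p`.  The data are: the product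
`rootNumber p R` of the local root numbers `w(E/K_v)`, the norm `conductor p R` of the `p`-part of
the conductor of `E/K`, and the product `polynomial p R` of the polynomials
`det(1 - Frob_v X^(f_v) | V_ℓ(E)^(I_v))`, whose value at `X = p^(-s)` is the inverse of the product
of the Euler factors above `p`.  All that is used: they depend only on the isomorphism class of the
`ℚ_p`-algebra `R`, they are multiplicative on products, the signs are `± 1`, the norms are positive,
and the polynomials have constant coefficient `1` and no root of absolute value less than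
`p^(-1/2)`. -/
structure LocalData where
  rootNumber : ∀ (p : ℕ) [Fact p.Prime] (R : Type) [CommRing R] [Algebra ℚ_[p] R], ℤ
  conductor : ∀ (p : ℕ) [Fact p.Prime] (R : Type) [CommRing R] [Algebra ℚ_[p] R], ℝ
  polynomial : ∀ (p : ℕ) [Fact p.Prime] (R : Type) [CommRing R] [Algebra ℚ_[p] R], Polynomial ℂ
  rootNumber_iso : ∀ (p : ℕ) [Fact p.Prime] (R R' : Type) [CommRing R] [Algebra ℚ_[p] R]
    [CommRing R'] [Algebra ℚ_[p] R'] [Module.Finite ℚ_[p] R] [Module.Finite ℚ_[p] R'],
    Nonempty (R ≃ₐ[ℚ_[p]] R') → rootNumber p R = rootNumber p R'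
  conductor_iso : ∀ (p : ℕ) [Fact p.Prime] (R R' : Type) [CommRing R] [Algebra ℚ_[p] R]
    [CommRing R'] [Algebra ℚ_[p] R'] [Module.Finite ℚ_[p] R] [Module.Finite ℚ_[p] R'],
    Nonempty (R ≃ₐ[ℚ_[p]] R') → conductor p R = conductor p R'
  polynomial_iso : ∀ (p : ℕ) [Fact p.Prime] (R R' : Type) [CommRing R] [Algebra ℚ_[p] R]
    [CommRing R'] [Algebra ℚ_[p] R'] [Module.Finite ℚ_[p] R] [Module.Finite ℚ_[p] R'],
    Nonempty (R ≃ₐ[ℚ_[p]] R') → polynomial p R = polynomial p R'
  rootNumber_prod : ∀ (p : ℕ) [Fact p.Prime] (R R' : Type) [CommRing R] [Algebra ℚ_[p] R]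
    [CommRing R'] [Algebra ℚ_[p] R'] [Module.Finite ℚ_[p] R] [Module.Finite ℚ_[p] R'],
    rootNumber p (R × R') = rootNumber p R * rootNumber p R'
  conductor_prod : ∀ (p : ℕ) [Fact p.Prime] (R R' : Type) [CommRing R] [Algebra ℚ_[p] R]
    [CommRing R'] [Algebra ℚ_[p] R'] [Module.Finite ℚ_[p] R] [Module.Finite ℚ_[p] R'],
    conductor p (R × R') = conductor p R * conductor p R'
  polynomial_prod : ∀ (p : ℕ) [Fact p.Prime] (R R' : Type) [CommRing R] [Algebra ℚ_[p] R]
    [CommRing R'] [Algebra ℚ_[p] R'] [Module.Finite ℚ_[p] R] [Module.Finite ℚ_[p] R'],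
    polynomial p (R × R') = polynomial p R * polynomial p R'
  rootNumber_sign : ∀ (p : ℕ) [Fact p.Prime] (R : Type) [CommRing R] [Algebra ℚ_[p] R]
    [Module.Finite ℚ_[p] R], rootNumber p R = 1 ∨ rootNumber p R = -1
  conductor_pos : ∀ (p : ℕ) [Fact p.Prime] (R : Type) [CommRing R] [Algebra ℚ_[p] R]
    [Module.Finite ℚ_[p] R], 0 < conductor p R
  polynomial_zero : ∀ (p : ℕ) [Fact p.Prime] (R : Type) [CommRing R] [Algebra ℚ_[p] R]
    [Module.Finite ℚ_[p] R], (polynomial p R).eval 0 = 1
  polynomial_root : ∀ (p : ℕ) [Fact p.Prime] (R : Type) [CommRing R] [Algebra ℚ_[p] R]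
    [Module.Finite ℚ_[p] R] (z : ℂ), (polynomial p R).eval z = 0 →
    (p : ℝ) ^ (-(1 / 2) : ℝ) ≤ ‖z‖

section HasseWeil

variable (A B : ℤ) (T : Finset ℕ) (D : LocalData) (K : Type) [Field K] [NumberField K]

open Classical in
/-- The global root number `w(E/K)`: `-1` for every archimedean place, `1` for every finite place
of good reduction, and the local root numbers above `T`. -/
noncomputable def rootNumber : ℤ :=
  (-1) ^ (InfinitePlace.nrRealPlaces K + InfinitePlace.nrComplexPlaces K) *
    ∏ p ∈ T, if h : p.Prime then haveI := Fact.mk h; D.rootNumber p (ℚ_[p] ⊗[ℚ] K) else 1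

open Classical in
/-- `A_{E/K} = disc(K)² N`, `N` the norm of the conductor of `E/K`. -/
noncomputable def conductorConstant : ℝ :=
  (NumberField.discr K : ℝ) ^ 2 *
    ∏ p ∈ T, if h : p.Prime then haveI := Fact.mk h; D.conductor p (ℚ_[p] ⊗[ℚ] K) else 1

open Classical in
/-- The inverse of the product of the Euler factors of `L(E/K, s)` above `T`. -/
noncomputable def badPartInv (s : ℂ) : ℂ :=
  ∏ p ∈ T, if h : p.Prime then haveI := Fact.mk h;
    (D.polynomial p (ℚ_[p] ⊗[ℚ] K)).eval ((p : ℂ) ^ (-s)) else 1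

/-- `L(E/K, s)` as an Euler product, `Re s > 3/2`. -/
noncomputable def LFunction (s : ℂ) : ℂ := goodPart A B K T s / badPartInv T D K s

/-- Finite order in vertical strips: `|F(s)| ≤ exp (C (1 + |Im s|)^c)` for `a ≤ Re s ≤ b`.  This is
implied by boundedness in vertical strips, and also by finite order. -/
def FiniteOrderInStrips (F : ℂ → ℂ) : Prop :=
  ∀ a b : ℝ, ∃ c C : ℝ, ∀ s : ℂ, a ≤ s.re → s.re ≤ b →
    ‖F s‖ ≤ Real.exp (C * (1 + |s.im|) ^ c)

/-- The Hasse-Weil conjecture for `E` over `K`: the completed L-function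
`Λ(E/K, s) = A_{E/K}^(s/2) ((2π)^(-s) Γ(s))^[K:ℚ] L(E/K, s)` extends to an entire function, of finite
order in vertical strips, and `Λ(E/K, s) = w(E/K) Λ(E/K, 2 - s)`.  (Then `L(E/K, s)` is entire
too, as `1/Γ` is entire.) -/
def HasseWeil : Prop :=
  ∃ Lam : ℂ → ℂ, Differentiable ℂ Lam ∧ FiniteOrderInStrips Lam ∧
    (∀ s : ℂ, Lam s = (rootNumber T D K : ℂ) * Lam (2 - s)) ∧
    ∀ s : ℂ, 3 / 2 < s.re →
      Lam s = ((conductorConstant T D K : ℝ) : ℂ) ^ (s / 2) *
        ((2 * Real.pi : ℂ) ^ (-s) * Complex.Gamma s) ^ Module.finrank ℚ K *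
          LFunction A B T D K s

/-- The Hasse-Weil conjecture for `E` over `K` up to the sign of the functional equation. -/
def HasseWeilUpToSign : Prop :=
  ∃ Lam : ℂ → ℂ, Differentiable ℂ Lam ∧ FiniteOrderInStrips Lam ∧
    ((∀ s : ℂ, Lam s = Lam (2 - s)) ∨ ∀ s : ℂ, Lam s = -Lam (2 - s)) ∧
    ∀ s : ℂ, 3 / 2 < s.re →
      Lam s = ((conductorConstant T D K : ℝ) : ℂ) ^ (s / 2) *
        ((2 * Real.pi : ℂ) ^ (-s) * Complex.Gamma s) ^ Module.finrank ℚ K *
          LFunction A B T D K s

/-- The meromorphic function `G(s) / Q(s)` is the continuation of `Λ(E/K, s)`, and has its functional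
equation: `G` is entire, of finite order in vertical strips, equal to `Q(s) Λ(E/K, s)` for
`Re s > 3/2`, and `G(s) / Q(s) = w(E/K) G(2 - s) / Q(2 - s)`. -/
def IsContinuation (Q G : ℂ → ℂ) : Prop :=
  Differentiable ℂ G ∧ FiniteOrderInStrips G ∧
    (∀ s : ℂ, G s * Q (2 - s) = (rootNumber T D K : ℂ) * (G (2 - s) * Q s)) ∧
    ∀ s : ℂ, 3 / 2 < s.re →
      G s = Q s * (((conductorConstant T D K : ℝ) : ℂ) ^ (s / 2) *
        ((2 * Real.pi : ℂ) ^ (-s) * Complex.Gamma s) ^ Module.finrank ℚ K *
          LFunction A B T D K s)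

end HasseWeil

/-! ### The functions `Q` -/

/-- The multipliers: entire functions of finite order which are not identically zero.  Examples: the
nonzero polynomials. -/
structure Multiplier (Q : ℂ → ℂ) : Prop where
  entire : Differentiable ℂ Q
  ne_zero : ∃ s : ℂ, Q s ≠ 0
  order : ∃ c C : ℝ, ∀ s : ℂ, ‖Q s‖ ≤ Real.exp (C * (1 + ‖s‖) ^ c)

/-! ### Local degrees -/

/-- `w` lies above `v`. -/
def Above {K F : Type} [Field K] [NumberField K] [Field F] [NumberField F] [Algebra K F]
    (v : HeightOneSpectrum (𝓞 K)) (w : HeightOneSpectrum (𝓞 F)) : Prop :=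
  w.asIdeal.comap (algebraMap (𝓞 K) (𝓞 F)) = v.asIdeal

/-- The local degree `[F_w : K_v] = e(w/v) f(w/v)` of a finite place `w` of `F` over `K`, where `v`
is the place of `K` below `w`. -/
noncomputable def localDegree (K : Type) {F : Type} [Field K] [NumberField K] [Field F]
    [NumberField F] [Algebra K F] (w : HeightOneSpectrum (𝓞 F)) : ℕ :=
  w.asIdeal.ramificationIdx (𝓞 K) * w.asIdeal.inertiaDeg (𝓞 K)

/-! ### Towers of quadratic extensions -/

/-- A number field `F` with the structure of an extension of `k`. -/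
structure Extension (k : Type) [Field k] where
  F : Type
  [field : Field F]
  [numberField : NumberField F]
  [algebra : Algebra k F]

attribute [instance] Extension.field Extension.numberField Extension.algebra

/-- `F` is obtained from `k` by `n` successive quadratic extensions. -/
inductive QuadraticTower (k : Type) [Field k] [NumberField k] : ℕ → Extension k → Prop
  | base : QuadraticTower k 0 ⟨k⟩
  | step {n : ℕ} {F F' : Extension k} (algebra : Algebra F.F F'.F)
      (tower : IsScalarTower k F.F F'.F) (h : QuadraticTower k n F)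
      (degree : Module.finrank F.F F'.F = 2) : QuadraticTower k (n + 1) F'

/-! ### Comparison with the definitions of the proof -/

private theorem tracePower_eq (a p : ℝ) (f : ℕ) :
    tracePower a p f = Pool.Agent.QD.luc a p f := by
  induction f using Nat.twoStepInduction with
  | zero => rfl
  | one => rfl
  | more f h1 h2 => rw [tracePower, Pool.Agent.QD.luc, h1, h2]

/-- the norm of a place is a power of a prime contained in it -/
private theorem norm_eq {K : Type} [Field K] [NumberField K] (v : HeightOneSpectrum (𝓞 K)) :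
    ∃ p f : ℕ, p.Prime ∧ 1 ≤ f ∧ norm v = p ^ f ∧ ((p : ℕ) : 𝓞 K) ∈ v.asIdeal := by
  have : v.asIdeal.IsMaximal := v.isMaximal
  let _ : Field (𝓞 K ⧸ v.asIdeal) := Ideal.Quotient.field v.asIdeal
  have : Finite (𝓞 K ⧸ v.asIdeal) := Ideal.finiteQuotientOfFreeOfNeBot v.asIdeal v.ne_bot
  let _ : Fintype (𝓞 K ⧸ v.asIdeal) := Fintype.ofFinite _
  have hpp : IsPrimePow (norm v) := by
    have h1 := Fintype.isPrimePow_card_of_field (α := 𝓞 K ⧸ v.asIdeal)
    have h2 : norm v = Fintype.card (𝓞 K ⧸ v.asIdeal) := by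
      unfold norm
      rw [Ideal.absNorm_apply, Submodule.cardQuot_apply, Nat.card_eq_fintype_card]
    rw [h2]
    exact h1
  rw [isPrimePow_nat_iff] at hpp
  obtain ⟨p, f, hp, hf, hpf⟩ := hpp
  refine ⟨p, f, hp, hf, hpf.symm, ?_⟩
  have h1 : ((norm v : ℕ) : 𝓞 K) ∈ v.asIdeal := Ideal.absNorm_mem v.asIdeal
  rw [← hpf, Nat.cast_pow] at h1
  exact v.isPrime.mem_of_pow_mem _ h1

private theorem trace_eq (A B : ℤ) {K : Type} [Field K] [NumberField K] (T : Finset ℕ)
    (v : HeightOneSpectrum (𝓞 K)) (hv : AwayFrom T v) :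
    trace A B v = Pool.Agent.QD.aT A B T (Pool.Agent.HWR.nrm v) := by
  obtain ⟨p, f, hp, hf, hpf, hmem⟩ := norm_eq v
  have hpT : p ∉ T := fun h => hv p h hmem
  have h1 : (norm v).minFac = p := by rw [hpf]; exact hp.pow_minFac (by omega)
  have h2 : Pool.Agent.HWR.nrm v = norm v := rfl
  unfold trace Pool.Agent.QD.aT
  rw [h2, h1, if_pos ⟨hp, hpT, f, hf, hpf⟩, tracePower_eq]
  rfl

private theorem goodPart_eq (A B : ℤ) (K : Type) [Field K] [NumberField K] (T : Finset ℕ)
    (s : ℂ) : goodPart A B K T s = Pool.Agent.HWR.LT K (Pool.Agent.QD.aT A B T) T s := by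
  unfold goodPart Pool.Agent.HWR.LT
  refine tprod_congr fun v => ?_
  unfold eulerFactor Pool.Agent.HWR.efac
  rw [trace_eq A B T v.1 v.2]
  rfl

private def toLoc (T : Finset ℕ) (D : LocalData) : Pool.Agent.QD.LocData T where
  sgn := D.rootNumber
  cond := D.conductor
  pol := D.polynomial
  sgn_iso := D.rootNumber_iso
  cond_iso := D.conductor_iso
  pol_iso := D.polynomial_iso
  sgn_prod := D.rootNumber_prod
  cond_prod := D.conductor_prod
  pol_prod := D.polynomial_prod
  sgn_sq := D.rootNumber_sign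
  cond_pos := D.conductor_pos
  pol_zero := D.polynomial_zero
  pol_root := D.polynomial_root

private theorem hw_iff (A B : ℤ) (T : Finset ℕ) (D : LocalData) (K : Type) [Field K]
    [NumberField K] :
    HasseWeil A B T D K ↔ (toLoc T D).HW (Pool.Agent.QD.aT A B T) K := by
  have h1 : (rootNumber T D K : ℂ) = (toLoc T D).w K := by
    unfold rootNumber Pool.Agent.QD.LocData.w Pool.Agent.QD.LocData.sg
    push_cast
    rfl
  unfold HasseWeil Pool.Agent.QD.LocData.HW
  rw [h1]
  have h2 : ∀ s : ℂ, ((conductorConstant T D K : ℝ) : ℂ) ^ (s / 2) *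
        ((2 * Real.pi : ℂ) ^ (-s) * Complex.Gamma s) ^ Module.finrank ℚ K *
          LFunction A B T D K s = (toLoc T D).Lam (Pool.Agent.QD.aT A B T) K s := by
    intro s
    unfold LFunction
    rw [goodPart_eq]
    rfl
  simp only [h2]
  rfl

private theorem pm_iff (A B : ℤ) (T : Finset ℕ) (D : LocalData) (K : Type) [Field K]
    [NumberField K] :
    HasseWeilUpToSign A B T D K ↔
      Pool.Agent.MD.HWpm (toLoc T D) (Pool.Agent.QD.aT A B T) K := by
  unfold HasseWeilUpToSign Pool.Agent.MD.HWpm
  have h2 : ∀ s : ℂ, ((conductorConstant T D K : ℝ) : ℂ) ^ (s / 2) *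
        ((2 * Real.pi : ℂ) ^ (-s) * Complex.Gamma s) ^ Module.finrank ℚ K *
          LFunction A B T D K s = (toLoc T D).Lam (Pool.Agent.QD.aT A B T) K s := by
    intro s
    unfold LFunction
    rw [goodPart_eq]
    rfl
  simp only [h2]
  rfl

/-- `Q = 1`: the Hasse-Weil conjecture -/
theorem multiplier_one (A B : ℤ) (T : Finset ℕ) (D : LocalData) (K : Type) [Field K]
    [NumberField K] : Multiplier (fun _ => 1) ∧
      (HasseWeil A B T D K ↔ ∃ G : ℂ → ℂ, IsContinuation A B T D K (fun _ => 1) G) := by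
  refine ⟨⟨differentiable_const _, ⟨0, one_ne_zero⟩, 0, 0, fun s => ?_⟩, ?_⟩
  · simp
  · unfold HasseWeil IsContinuation
    simp only [mul_one, one_mul]

private theorem lam_eq (A B : ℤ) (T : Finset ℕ) (D : LocalData) (K : Type) [Field K]
    [NumberField K] (s : ℂ) : ((conductorConstant T D K : ℝ) : ℂ) ^ (s / 2) *
        ((2 * Real.pi : ℂ) ^ (-s) * Complex.Gamma s) ^ Module.finrank ℚ K *
          LFunction A B T D K s = (toLoc T D).Lam (Pool.Agent.QD.aT A B T) K s := by
  unfold LFunction
  rw [goodPart_eq]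
  rfl

private theorem hwg_of (A B : ℤ) (T : Finset ℕ) (D : LocalData) (K : Type) [Field K]
    [NumberField K] (Q G : ℂ → ℂ) (h : IsContinuation A B T D K Q G) :
    Pool.Agent.UPQ.HWG (toLoc T D) (Pool.Agent.QD.aT A B T) Q K := by
  obtain ⟨hG1, hG2, hG3, hG4⟩ := h
  have h1 : (rootNumber T D K : ℂ) = (toLoc T D).w K := by
    unfold rootNumber Pool.Agent.QD.LocData.w Pool.Agent.QD.LocData.sg
    push_cast
    rfl
  refine ⟨G, hG1, hG2, fun s hs => ?_, fun s => ?_⟩
  · rw [hG4 s hs, lam_eq]
  · rw [hG3 s, h1]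

private theorem isG_of (A B : ℤ) (T : Finset ℕ) (D : LocalData) (K : Type) [Field K]
    [NumberField K] (Q G : ℂ → ℂ) (h : IsContinuation A B T D K Q G) :
    Pool.Agent.UPQ.IsG (toLoc T D) (Pool.Agent.QD.aT A B T) Q K G := by
  refine ⟨h.1, fun s hs => ?_⟩
  rw [h.2.2.2 s hs, lam_eq]

private theorem adm_of {Q : ℂ → ℂ} (h : Multiplier Q) : Pool.Agent.UPQ.IsAdm Q :=
  ⟨h.entire, h.ne_zero, h.order⟩

private theorem ord_lt {x y : ℕ∞} {j : ℕ} (h : x < y + 2 ^ j) : x ≤ y + ((2 ^ j - 1 : ℕ) : ℕ∞) := by
  have h2 : 1 ≤ 2 ^ j := Nat.one_le_two_pow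
  have h3 : (2 : ℕ∞) ^ j = ((2 ^ j - 1 : ℕ) : ℕ∞) + 1 := by
    have h4 : (2 ^ j : ℕ) = (2 ^ j - 1) + 1 := by omega
    have h5 : (((2 ^ j : ℕ)) : ℕ∞) = (((2 ^ j - 1) + 1 : ℕ) : ℕ∞) := by rw [← h4]
    push_cast at h5
    push_cast
    exact h5
  rw [h3, ← add_assoc] at h
  exact Order.le_of_lt_add_one h

private def toExt {k : Type} [Field k] (F : Extension k) : Pool.Agent.MD.Ext k :=
  @Pool.Agent.MD.Ext.mk k _ F.F F.field F.numberField F.algebra

private def ofExt {k : Type} [Field k] (F : Pool.Agent.MD.Ext k) : Extension k :=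
  @Extension.mk k _ F.F F.fld F.nf F.alg

private theorem tower_to {k : Type} [Field k] [NumberField k] {n : ℕ} {F : Extension k}
    (h : QuadraticTower k n F) : Pool.Agent.MD.QTn k n (toExt F) := by
  induction h with
  | base => exact Pool.Agent.MD.QTn.base
  | @step n F F' alg tow _ deg ih =>
    exact Pool.Agent.MD.QTn.step (F := toExt F) (F' := toExt F') alg tow ih deg

private theorem tower_of {k : Type} [Field k] [NumberField k] {n : ℕ} {F : Pool.Agent.MD.Ext k}
    (h : Pool.Agent.MD.QTn k n F) : QuadraticTower k n (ofExt F) := by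
  induction h with
  | base => exact QuadraticTower.base
  | @step n F F' alg tow _ deg ih =>
    exact QuadraticTower.step (F := ofExt F) (F' := ofExt F') alg tow ih deg

/-- Let `E : y² = x³ + A x + B` be an elliptic curve over `ℚ`, `k` a number field, `V` a finite set
of finite places of `k` not above `T`, `N` and `j` natural numbers.  Call a field obtained from `k` by
`n` successive quadratic extensions good if every place above `V` has even local degree over `k`.
Suppose that for every good field `F` with `n < N + j` there is a multiplier `Q` such that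
`Q(s) Λ(E/L, s)` is entire, of finite order in vertical strips, and
`Λ(E/L, s) = w(E/L) Λ(E/L, 2 - s)` for `L = F` and all quadratic extensions `L` of `F`, and that for
`n = N + j` there is one for `L = F`, where the poles of `Λ(E/F, s)` with `1 ≤ Re s ≤ 3/2` have order
less than `2^j`.  Then `E` satisfies the Hasse-Weil conjecture over the good fields with `n ≤ N`, over
all fields obtained from `k` by `n` successive quadratic extensions, `1 ≤ n ≤ N - 1`, and, if `N ≥ 2`,
over `k` up to the sign of the functional equation. -/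
theorem result (A B : ℤ) (T : Finset ℕ) (hTp : ∀ p ∈ T, p.Prime)
    (hT : ∀ p : ℕ, p.Prime → p < 101 → p ∈ T)
    (hbad : ∀ p : ℕ, p.Prime → (p : ℤ) ∣ 4 * A ^ 3 + 27 * B ^ 2 → p ∈ T) (D : LocalData)
    (k : Type) [Field k] [NumberField k] (V : Finset (HeightOneSpectrum (𝓞 k)))
    (hV : ∀ v ∈ V, AwayFrom T v) (N j : ℕ)
    (H₁ : ∀ n : ℕ, n < N + j → ∀ F : Extension k, QuadraticTower k n F →
      (∀ v ∈ V, ∀ w : HeightOneSpectrum (𝓞 F.F), Above v w → 2 ∣ localDegree k w) →
      ∃ Q : ℂ → ℂ, Multiplier Q ∧ (∃ G : ℂ → ℂ, IsContinuation A B T D F.F Q G) ∧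
        ∀ (L : Type) [Field L] [NumberField L] [Algebra F.F L], Module.finrank F.F L = 2 →
          ∃ G : ℂ → ℂ, IsContinuation A B T D L Q G)
    (H₂ : ∀ F : Extension k, QuadraticTower k (N + j) F →
      (∀ v ∈ V, ∀ w : HeightOneSpectrum (𝓞 F.F), Above v w → 2 ∣ localDegree k w) →
      ∃ Q G : ℂ → ℂ, Multiplier Q ∧ IsContinuation A B T D F.F Q G ∧
        ∀ z : ℂ, 1 ≤ z.re → z.re ≤ 3 / 2 → analyticOrderAt Q z < analyticOrderAt G z + 2 ^ j) :
    (∀ n : ℕ, n ≤ N → ∀ F : Extension k, QuadraticTower k n F →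
      (∀ v ∈ V, ∀ w : HeightOneSpectrum (𝓞 F.F), Above v w → 2 ∣ localDegree k w) →
      HasseWeil A B T D F.F) ∧
    (∀ n : ℕ, 1 ≤ n → n + 1 ≤ N → ∀ F : Extension k, QuadraticTower k n F →
      HasseWeil A B T D F.F) ∧
    (2 ≤ N → HasseWeilUpToSign A B T D k) := by
  have key := Pool.Agent.UPQ.upv_main k T hTp hT (toLoc T D) _
    (Pool.Agent.QD.aT_bd A B T hT hbad) (Pool.Agent.QD.aT_frob A B T)
    (Pool.Agent.UPQ.aT_int A B T) V hV N j
    (fun n hn F hF hev => by
      obtain ⟨Q, hQ, ⟨G, hG⟩, hL⟩ := H₁ n hn (ofExt F) (tower_of hF) hev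
      refine ⟨Q, adm_of hQ, hwg_of A B T D F.F Q G hG, ?_⟩
      intro L _ _ iA hd
      obtain ⟨G', hG'⟩ := @hL L _ _ iA hd
      exact hwg_of A B T D L Q G' hG')
    (fun F hF hev => by
      obtain ⟨Q, G, hQ, hG, hz⟩ := H₂ (ofExt F) (tower_of hF) hev
      refine ⟨Q, adm_of hQ, hwg_of A B T D F.F Q G hG, fun z h1 h2 G' hG' => ?_⟩
      have h3 : G' = G := Pool.Agent.UPQ.isG_unique (toLoc T D) hG' (isG_of A B T D F.F Q G hG)
      rw [h3]
      exact ord_lt (hz z h1 h2))
  refine ⟨fun n hn F hF hev => ?_, fun n h1 hn F hF => ?_,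
    fun h2 => (pm_iff A B T D k).2 (key.2.2 h2)⟩
  · exact (hw_iff A B T D F.F).2 (key.1 n hn (toExt F) (tower_to hF) hev)
  · obtain ⟨m, rfl⟩ : ∃ m, n = m + 1 := ⟨n - 1, by omega⟩
    exact (hw_iff A B T D F.F).2 (key.2.1 m (by omega) (toExt F) (tower_to hF))

end Pool.Agent.Results.MP_bf9450_nt.UniformPoles
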